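import Pool.Agent.K3h26.KP.Stm

/-!
# Brick PEN: the properties of the penalties in dimension eight
-/

set_option autoImplicit false

open MeasureTheory Filter Topology Set
open scoped ENNReal NNReal

namespace Pool.Agent.K3h94.KP

open Pool.Agent.K3h26.KP

theorem mm_nonneg {D : ℕ} (e : Fin D → Fin 8) (κ : Fin 8) (u : Fin D → ℝ) (j : Fin 4) :
    0 ≤ mm e κ u j := NNReal.coe_nonneg _

theorem le_mm {D : ℕ} (e : Fin D → Fin 8) (κ : Fin 8) (u : Fin D → ℝ) (j : Fin 4) (i : Fin D)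
    (h : ty κ (e i) = (j : ℕ)) : |u i| ≤ mm e κ u j := by
  have h1 : (if ty κ (e i) = (j : ℕ) then ‖u i‖₊ else 0 : ℝ≥0) ≤
      Finset.univ.sup fun i : Fin D => if ty κ (e i) = (j : ℕ) then ‖u i‖₊ else 0 :=
    Finset.le_sup (f := fun i : Fin D => if ty κ (e i) = (j : ℕ) then ‖u i‖₊ else 0)
      (Finset.mem_univ i)
  rw [if_pos h] at h1
  have h2 : ((‖u i‖₊ : ℝ≥0) : ℝ) ≤ mm e κ u j := NNReal.coe_le_coe.2 h1
  simpa using h2

theorem mm_le {D : ℕ} (e : Fin D → Fin 8) (κ : Fin 8) (u : Fin D → ℝ) (j : Fin 4) {t : ℝ}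
    (ht : 0 ≤ t) (h : ∀ i, ty κ (e i) = (j : ℕ) → |u i| ≤ t) : mm e κ u j ≤ t := by
  lift t to ℝ≥0 using ht
  refine NNReal.coe_le_coe.2 (Finset.sup_le fun i _ => ?_)
  split_ifs with hi
  · rw [← NNReal.coe_le_coe]
    simpa using h i hi
  · exact bot_le

theorem mm_smul {D : ℕ} (e : Fin D → Fin 8) (κ : Fin 8) (u : Fin D → ℝ) (j : Fin 4) {s : ℝ}
    (hs : 0 ≤ s) : mm e κ (fun i => s * u i) j = s * mm e κ u j := by
  apply le_antisymm
  · refine mm_le _ _ _ _ (mul_nonneg hs (mm_nonneg _ _ _ _)) fun i hi => ?_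
    rw [abs_mul, abs_of_nonneg hs]
    exact mul_le_mul_of_nonneg_left (le_mm e κ u j i hi) hs
  · rcases hs.eq_or_lt with h0 | h0
    · rw [← h0, zero_mul]
      exact mm_nonneg _ _ _ _
    · rw [← le_div_iff₀' h0]
      refine mm_le _ _ _ _ (div_nonneg (mm_nonneg _ _ _ _) hs) fun i hi => ?_
      rw [le_div_iff₀' h0]
      have h1 := le_mm e κ (fun i => s * u i) j i hi
      rwa [abs_mul, abs_of_nonneg hs] at h1

theorem mm_add {D : ℕ} (e : Fin D → Fin 8) (κ : Fin 8) (u v : Fin D → ℝ) (j : Fin 4) :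
    mm e κ (u + v) j ≤ mm e κ u j + mm e κ v j := by
  refine mm_le _ _ _ _ (add_nonneg (mm_nonneg _ _ _ _) (mm_nonneg _ _ _ _)) fun i hi => ?_
  exact (abs_add_le _ _).trans (add_le_add (le_mm e κ u j i hi) (le_mm e κ v j i hi))

theorem mm_neg {D : ℕ} (e : Fin D → Fin 8) (κ : Fin 8) (u : Fin D → ℝ) (j : Fin 4) :
    mm e κ (-u) j = mm e κ u j := by
  unfold mm
  simp only [Pi.neg_apply, nnnorm_neg]

theorem gg_le {s : Fin 4 → ℝ} {t : ℝ} : gg s ≤ t ↔
    s 0 ≤ t ∧ (s 1 + s 2) / 2 ≤ t ∧ (s 1 + s 3) / 2 ≤ t ∧ (s 2 + s 3) / 2 ≤ t := by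
  unfold gg
  simp only [max_le_iff]

theorem gg_ge (s : Fin 4 → ℝ) :
    s 0 ≤ gg s ∧ (s 1 + s 2) / 2 ≤ gg s ∧ (s 1 + s 3) / 2 ≤ gg s ∧ (s 2 + s 3) / 2 ≤ gg s :=
  gg_le.1 le_rfl

theorem gg_smul (s : Fin 4 → ℝ) {a : ℝ} (ha : 0 ≤ a) : gg (fun i => a * s i) = a * gg s := by
  unfold gg
  simp only [mul_max_of_nonneg _ _ ha]
  congr 1
  congr 1
  · ring
  congr 1 <;> ring

theorem gg_mm_smul {D : ℕ} (e : Fin D → Fin 8) (κ : Fin 8) (u : Fin D → ℝ) {s : ℝ}
    (hs : 0 ≤ s) : gg (mm e κ (fun i => s * u i)) = s * gg (mm e κ u) := by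
  rw [← gg_smul _ hs]
  congr 1
  funext j
  exact mm_smul e κ u j hs

theorem gg_mm_nonneg {D : ℕ} (e : Fin D → Fin 8) (κ : Fin 8) (u : Fin D → ℝ) :
    0 ≤ gg (mm e κ u) := (mm_nonneg e κ u 0).trans (gg_ge _).1

theorem gg_mm_add {D : ℕ} (e : Fin D → Fin 8) (κ : Fin 8) (u v : Fin D → ℝ) :
    gg (mm e κ (u + v)) ≤ gg (mm e κ u) + gg (mm e κ v) := by
  obtain ⟨a0, a1, a2, a3⟩ := gg_ge (mm e κ u)
  obtain ⟨b0, b1, b2, b3⟩ := gg_ge (mm e κ v)
  have h0 := mm_add e κ u v 0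
  have h1 := mm_add e κ u v 1
  have h2 := mm_add e κ u v 2
  have h3 := mm_add e κ u v 3
  rw [gg_le]
  refine ⟨?_, ?_, ?_, ?_⟩ <;> linarith

theorem continuous_mm {D : ℕ} (e : Fin D → Fin 8) (κ : Fin 8) (j : Fin 4) :
    Continuous fun u : Fin D → ℝ => mm e κ u j := by
  unfold mm
  refine NNReal.continuous_coe.comp ?_
  refine Continuous.finset_sup_apply fun i _ => ?_
  split_ifs
  · exact (continuous_apply i).nnnorm
  · exact continuous_const

theorem continuous_gg_mm {D : ℕ} (e : Fin D → Fin 8) (κ : Fin 8) :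
    Continuous fun u : Fin D → ℝ => gg (mm e κ u) := by
  unfold gg
  have h := continuous_mm e κ
  exact (h 0).max ((((h 1).add (h 2)).div_const 2).max ((((h 1).add (h 3)).div_const 2).max
    (((h 2).add (h 3)).div_const 2)))

instance (k : Fin 8) : Nonempty {l : Fin 8 // l ≠ k} :=
  ⟨⟨k + 1, by revert k; decide⟩⟩

theorem exc_le {δ : ℝ} {k : Fin 8} {w : Fin 8 → ℝ} {t : ℝ} (ht : 0 ≤ t)
    (h : ∀ l, l ≠ k → (|w l| - (1 - δ)) / δ ≤ t) : exc δ k w ≤ t :=
  ciSup_le fun l => max_le ht (h l.1 l.2)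

theorem le_exc {δ : ℝ} {k : Fin 8} {w : Fin 8 → ℝ} (l : Fin 8) (hl : l ≠ k) :
    max 0 ((|w l| - (1 - δ)) / δ) ≤ exc δ k w :=
  le_ciSup (f := fun l : {l : Fin 8 // l ≠ k} => max 0 ((|w l| - (1 - δ)) / δ))
    (Set.finite_range _).bddAbove ⟨l, hl⟩

theorem exc_nonneg {δ : ℝ} {k : Fin 8} {w : Fin 8 → ℝ} : 0 ≤ exc δ k w := by
  obtain ⟨l, hl⟩ := (inferInstance : Nonempty {l : Fin 8 // l ≠ k})
  exact (le_max_left _ _).trans (le_exc l hl)

theorem continuous_exc (δ : ℝ) (k : Fin 8) : Continuous (exc δ k) := by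
  have h : exc δ k = fun w => Finset.univ.sup' Finset.univ_nonempty
      fun l : {l : Fin 8 // l ≠ k} => max 0 ((|w l| - (1 - δ)) / δ) := by
    funext w
    unfold exc
    rw [Finset.sup'_univ_eq_ciSup]
  rw [h]
  refine Continuous.finset_sup'_apply _ fun l _ => ?_
  have h1 : Continuous fun w : Fin 8 → ℝ => (|w l| - (1 - δ)) / δ := by fun_prop
  exact continuous_const.max h1

/-- brick PEN -/
theorem t_PEN : S_PEN := by
  intro δ hδ hδ1
  have hpos : ∀ (k : Fin 8) (w : Fin 8 → ℝ), 0 ≤ Pf δ k w := fun k w =>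
    (gg_mm_nonneg id k w).trans (le_max_left _ _)
  have hge : ∀ (k : Fin 8) (w : Fin 8 → ℝ) (l : Fin 8), l ≠ k →
      (|w l| - (1 - δ)) / δ ≤ Pf δ k w := fun k w l hl =>
    ((le_max_right _ _).trans (le_exc l hl)).trans (le_max_right _ _)
  have hgg : ∀ (k : Fin 8) (w : Fin 8 → ℝ), gg (mm id k w) ≤ Pf δ k w := fun k w =>
    le_max_left _ _
  refine ⟨⟨hpos, ?_, ?_, ?_, ?_, ?_⟩, hge, hgg, ?_, fun k w s hs => gg_mm_smul id k w hs⟩
  · -- at most 1
    intro k w hw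
    refine max_le ?_ (exc_le zero_le_one fun l _ => ?_)
    · have h : ∀ j, mm id k w j ≤ 1 := fun j => mm_le _ _ _ _ zero_le_one fun i _ => hw i
      have h0 := h 0
      have h1 := h 1
      have h2 := h 2
      have h3 := h 3
      rw [gg_le]
      refine ⟨?_, ?_, ?_, ?_⟩ <;> linarith
    · rw [div_le_one hδ]
      have := hw l
      linarith
  · -- even
    intro k w
    unfold Pf exc
    simp only [Pi.neg_apply, abs_neg]
    congr 2
    funext j
    exact mm_neg id k w j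
  · -- zero
    intro k
    apply le_antisymm _ (hpos k 0)
    refine max_le ?_ (exc_le le_rfl fun l _ => ?_)
    · have h : ∀ j, mm id k (0 : Fin 8 → ℝ) j ≤ 0 := fun j => mm_le _ _ _ _ le_rfl fun i _ => by
        simp
      have h0 := h 0
      have h1 := h 1
      have h2 := h 2
      have h3 := h 3
      rw [gg_le]
      refine ⟨?_, ?_, ?_, ?_⟩ <;> linarith
    · rw [div_le_iff₀ hδ]
      simp
      exact hδ1
  · -- continuous
    intro k
    exact (continuous_gg_mm id k).max (continuous_exc δ k)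
  · -- convex
    intro k
    refine ⟨convex_univ, fun x _ y _ a b ha hb hab => ?_⟩
    simp only [smul_eq_mul]
    have hx := hpos k x
    have hy := hpos k y
    refine max_le ?_ (exc_le (by positivity) fun l hl => ?_)
    · refine (gg_mm_add id k (a • x) (b • y)).trans ?_
      have e1 : gg (mm id k (a • x)) = a * gg (mm id k x) := gg_mm_smul id k x ha
      have e2 : gg (mm id k (b • y)) = b * gg (mm id k y) := gg_mm_smul id k y hb
      rw [e1, e2]
      exact add_le_add (mul_le_mul_of_nonneg_left (hgg k x) ha)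
        (mul_le_mul_of_nonneg_left (hgg k y) hb)
    · have h1 := mul_le_mul_of_nonneg_left (hge k x l hl) ha
      have h2 := mul_le_mul_of_nonneg_left (hge k y l hl) hb
      refine le_trans ?_ (add_le_add h1 h2)
      rw [← mul_div_assoc, ← mul_div_assoc, ← add_div]
      refine div_le_div_of_nonneg_right ?_ hδ.le
      have h3 : |(a • x + b • y) l| ≤ a * |x l| + b * |y l| := by
        simp only [Pi.add_apply, Pi.smul_apply, smul_eq_mul]
        refine (abs_add_le _ _).trans ?_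
        rw [abs_mul, abs_mul, abs_of_nonneg ha, abs_of_nonneg hb]
      have h4 : a * (1 - δ) + b * (1 - δ) = 1 - δ := by rw [← add_mul, hab, one_mul]
      nlinarith
  · -- upper bound
    intro k w
    have hs : ∀ l : Fin 8, 0 ≤ max 0 ((|w l| - (1 - δ)) / δ) := fun l => le_max_left _ _
    have hsum : 0 ≤ ∑ l ∈ Finset.univ.erase k, max 0 ((|w l| - (1 - δ)) / δ) :=
      Finset.sum_nonneg fun l _ => hs l
    refine max_le (by linarith) (exc_le (by linarith [gg_mm_nonneg id k w]) fun l hl => ?_)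
    have h1 : max 0 ((|w l| - (1 - δ)) / δ) ≤
        ∑ l ∈ Finset.univ.erase k, max 0 ((|w l| - (1 - δ)) / δ) :=
      Finset.single_le_sum (f := fun l => max 0 ((|w l| - (1 - δ)) / δ)) (fun l _ => hs l)
        (Finset.mem_erase.2 ⟨hl, Finset.mem_univ l⟩)
    have h2 := le_max_right (0 : ℝ) ((|w l| - (1 - δ)) / δ)
    linarith [gg_mm_nonneg id k w]

end Pool.Agent.K3h94.KP
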