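import Pool.Agent.K3h26.KP.Stm

/-!
# Brick TRI: an elementary inequality
-/

set_option autoImplicit false

namespace Pool.Agent.K3h94.KP

open Pool.Agent.K3h26.KP

/-- brick TRI -/
theorem t_TRI : S_TRI := by
  intro θ φ ψ ψ' n h1 h2 h3 h4 h5 h6 h7 h8 h9
  -- `(ψ - ψ') ^ 2 ≥ m ^ 2`, where `m = min θ (1 - θ)`
  have key : ∃ m : ℝ, 0 ≤ m ∧ m ≤ 1 / 2 ∧ θ * (1 - θ) = m * (1 - m) ∧ m ^ 2 ≤ (ψ - ψ') ^ 2 := by
    have hd : ψ - ψ' = θ - n := by linarith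
    rw [hd]
    rcases le_or_gt θ (1 / 2) with ht | ht
    · refine ⟨θ, h1, ht, rfl, ?_⟩
      rcases lt_or_ge n 1 with hn | hn
      · have hn' : (n : ℝ) ≤ 0 := by
          have : n ≤ 0 := by omega
          exact_mod_cast this
        nlinarith
      · have hn' : (1 : ℝ) ≤ n := by exact_mod_cast hn
        nlinarith
    · refine ⟨1 - θ, by linarith, by linarith, by ring, ?_⟩
      rcases lt_or_ge n 1 with hn | hn
      · have hn' : (n : ℝ) ≤ 0 := by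
          have : n ≤ 0 := by omega
          exact_mod_cast this
        nlinarith
      · have hn' : (1 : ℝ) ≤ n := by exact_mod_cast hn
        nlinarith
  obtain ⟨m, hm0, hm1, hm2, hm3⟩ := key
  have hk0 : 0 ≤ φ * (1 - φ) := mul_nonneg h3 (by linarith)
  have hk1 : φ * (1 - φ) ≤ 1 / 4 := by nlinarith [sq_nonneg (φ - 1 / 2)]
  -- the weighted sum of squares
  have e1 : (1 - φ) * (ψ * (1 - ψ)) + φ * (ψ' * (1 - ψ')) =
      1 / 4 - ((1 - φ) * (ψ - 1 / 2) ^ 2 + φ * (ψ' - 1 / 2) ^ 2) := by ring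
  have e2 : (1 - φ) * (ψ - 1 / 2) ^ 2 + φ * (ψ' - 1 / 2) ^ 2 =
      φ * (1 - φ) * (ψ - ψ') ^ 2 + ((1 - φ) * (ψ - 1 / 2) + φ * (ψ' - 1 / 2)) ^ 2 := by ring
  have e3 : φ * (1 - φ) * m ^ 2 ≤ φ * (1 - φ) * (ψ - ψ') ^ 2 :=
    mul_le_mul_of_nonneg_left hm3 hk0
  have e4 := sq_nonneg ((1 - φ) * (ψ - 1 / 2) + φ * (ψ' - 1 / 2))
  have e5 : φ * (1 - φ) * (1 - m ^ 2) ≤ 1 / 4 * (1 - m ^ 2) :=
    mul_le_mul_of_nonneg_right hk1 (by nlinarith)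
  have e6 : 2 * θ * (1 - θ) = 2 * (m * (1 - m)) := by rw [← hm2]; ring
  rw [e6]
  nlinarith [sq_nonneg (m - 4 / 9)]

end Pool.Agent.K3h94.KP
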